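import Mathlib
import Pool.Agent.H.MP_520f25_al.Main

set_option autoImplicit false

namespace Pool.Agent.Results.MP_520f25_al.Q1

theorem result : ∃ (B : Type) (_ : Finite B) (_ : AddGroup B) (_ : Group B),
    (∀ a b c : B, a * (b + c) = a * b - a + a * c) ∧ commutator (Multiplicative B) = ⊤ ∧
    (∃ S : Subgroup B, S.Normal ∧ IsSimpleGroup S ∧ ¬ IsMulCommutative S ∧
      Subgroup.centralizer (S : Set B) = ⊥) ∧ commutator B ≠ ⊤ :=
  Pool.Agent.H.MP_520f25_al.final

end Pool.Agent.Results.MP_520f25_al.Q1
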